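import Mathlib
import Pool.Agent.Hhelper32.Bcf.Growth

/-!
Two entire functions with the same zeros whose `n`-th derivatives are single exponentials.
-/

set_option autoImplicit false

open Complex Metric Set

namespace Pool.Agent.Hhelper45.Hink

open Pool.Agent.Hhelper32.Bcf

theorem poly_of_iteratedDeriv_zero (n : ℕ) (F : ℂ → ℂ) (hF : Differentiable ℂ F)
    (h : ∀ z, iteratedDeriv n F z = 0) : ∃ P : Polynomial ℂ, ∀ z, F z = P.eval z := by
  have hn : deriv^[n] F = fun _ => 0 := by
    rw [← iteratedDeriv_eq_iterate]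
    funext z
    exact h z
  have h0 : ∀ j : ℕ, deriv^[j] (fun _ : ℂ => (0 : ℂ)) = fun _ => 0 := by
    intro j
    induction j with
    | zero => rfl
    | succ j ih =>
      rw [Function.iterate_succ_apply', ih]
      funext z
      simp
  have hk : ∀ k, n ≤ k → iteratedDeriv k F 0 = 0 := by
    intro k hk
    obtain ⟨j, rfl⟩ := Nat.exists_eq_add_of_le' hk
    rw [iteratedDeriv_eq_iterate, Function.iterate_add_apply, hn, h0 j]
  refine ⟨∑ k ∈ Finset.range n, Polynomial.monomial k ((k.factorial : ℂ)⁻¹ * iteratedDeriv k F 0),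
    fun z => ?_⟩
  have h1 := Complex.hasSum_taylorSeries_of_entire hF 0 z
  have h2 : HasSum (fun k : ℕ => (k.factorial : ℂ)⁻¹ • (z - 0) ^ k • iteratedDeriv k F 0)
      (∑ k ∈ Finset.range n, (k.factorial : ℂ)⁻¹ • (z - 0) ^ k • iteratedDeriv k F 0) := by
    apply hasSum_sum_of_ne_finset_zero
    intro k hk'
    simp only [Finset.mem_range, not_lt] at hk'
    simp only [hk k hk', smul_zero]
  rw [h1.unique h2, Polynomial.eval_finsetSum]
  refine Finset.sum_congr rfl (fun k _ => ?_)
  simp only [Polynomial.eval_monomial, smul_eq_mul, sub_zero]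
  ring

/-- Exponentials are linearly independent over polynomials. -/
theorem expPoly_indep (S : Finset ℂ) : ∀ (p : ℂ → Polynomial ℂ),
    (∀ z : ℂ, ∑ l ∈ S, (p l).eval z * cexp (l * z) = 0) → ∀ l ∈ S, p l = 0 := by
  classical
  induction S using Finset.induction_on with
  | empty => intro p _ l hl; simp at hl
  | insert a S ha ih =>
    intro p hp
    set T : ℂ → Polynomial ℂ → Polynomial ℂ := fun c q => Polynomial.derivative q + Polynomial.C c * q
      with hT
    have hTinj : ∀ c : ℂ, c ≠ 0 → ∀ q, T c q = 0 → q = 0 := by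
      intro c hc q hq
      by_contra hne
      have h1 : Polynomial.C c * q = - Polynomial.derivative q := by
        rw [eq_neg_iff_add_eq_zero, add_comm]
        exact hq
      have h2 : (Polynomial.C c * q).degree = q.degree := Polynomial.degree_C_mul hc
      have h3 := Polynomial.degree_derivative_lt hne
      rw [h1, Polynomial.degree_neg] at h2
      exact h3.ne h2
    have hTm : ∀ c : ℂ, c ≠ 0 → ∀ m : ℕ, ∀ q, (T c)^[m] q = 0 → q = 0 := by
      intro c hc m
      induction m with
      | zero => intro q hq; exact hq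
      | succ m ihm =>
        intro q hq
        rw [Function.iterate_succ_apply] at hq
        exact hTinj c hc q (ihm _ hq)
    have hF : ∀ m : ℕ, ∀ z : ℂ, (Polynomial.derivative^[m] (p a)).eval z +
        ∑ l ∈ S, ((T (l - a))^[m] (p l)).eval z * cexp ((l - a) * z) = 0 := by
      intro m
      induction m with
      | zero =>
        intro z
        have h1 := hp z
        rw [Finset.sum_insert ha] at h1
        have h2 : ∑ l ∈ S, (p l).eval z * cexp ((l - a) * z) =
            cexp (-(a * z)) * ∑ l ∈ S, (p l).eval z * cexp (l * z) := by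
          rw [Finset.mul_sum]
          refine Finset.sum_congr rfl (fun l _ => ?_)
          have : cexp ((l - a) * z) = cexp (-(a * z)) * cexp (l * z) := by
            rw [← Complex.exp_add]; congr 1; ring
          rw [this]; ring
        simp only [Function.iterate_zero, id]
        rw [h2]
        have h3 : cexp (-(a * z)) * cexp (a * z) = 1 := by
          rw [← Complex.exp_add, neg_add_cancel, Complex.exp_zero]
        linear_combination cexp (-(a * z)) * h1 - (p a).eval z * h3
      | succ m ihm =>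
        intro z
        have hd : HasDerivAt (fun z : ℂ => (Polynomial.derivative^[m] (p a)).eval z +
            ∑ l ∈ S, ((T (l - a))^[m] (p l)).eval z * cexp ((l - a) * z))
            ((Polynomial.derivative^[m + 1] (p a)).eval z +
              ∑ l ∈ S, ((T (l - a))^[m + 1] (p l)).eval z * cexp ((l - a) * z)) z := by
          apply HasDerivAt.add
          · rw [Function.iterate_succ_apply']
            exact Polynomial.hasDerivAt _ _
          · apply HasDerivAt.fun_sum
            intro l _
            rw [Function.iterate_succ_apply']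
            generalize (T (l - a))^[m] (p l) = q
            have h1 := (Polynomial.hasDerivAt q z)
            have h2 : HasDerivAt (fun z : ℂ => cexp ((l - a) * z)) (cexp ((l - a) * z) * ((l - a) * 1)) z :=
              (((hasDerivAt_id z).const_mul (l - a))).cexp
            refine (h1.fun_mul h2).congr_deriv ?_
            show _ = (Polynomial.derivative q + Polynomial.C (l - a) * q).eval z * cexp ((l - a) * z)
            rw [Polynomial.eval_add, Polynomial.eval_mul, Polynomial.eval_C]
            ring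
        have h0 : (fun z : ℂ => (Polynomial.derivative^[m] (p a)).eval z +
            ∑ l ∈ S, ((T (l - a))^[m] (p l)).eval z * cexp ((l - a) * z)) = fun _ => 0 := by
          funext z
          exact ihm z
        rw [h0] at hd
        exact hd.unique (hasDerivAt_const z (0 : ℂ))
    have hS : ∀ l ∈ S, p l = 0 := by
      intro l hl
      have hla : l - a ≠ 0 := by
        intro h
        rw [sub_eq_zero] at h
        exact ha (h ▸ hl)
      refine hTm (l - a) hla ((p a).natDegree + 1) (p l) ?_
      refine ih (fun l => (T (l - a))^[(p a).natDegree + 1] (p l)) (fun z => ?_) l hl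
      have h1 := hF ((p a).natDegree + 1) z
      rw [Polynomial.iterate_derivative_eq_zero (Nat.lt_succ_self _), Polynomial.eval_zero, zero_add] at h1
      have h2 : ∑ l ∈ S, ((T (l - a))^[(p a).natDegree + 1] (p l)).eval z * cexp (l * z) =
          cexp (a * z) * ∑ l ∈ S, ((T (l - a))^[(p a).natDegree + 1] (p l)).eval z * cexp ((l - a) * z) := by
        rw [Finset.mul_sum]
        refine Finset.sum_congr rfl (fun l _ => ?_)
        have : cexp (l * z) = cexp (a * z) * cexp ((l - a) * z) := by
          rw [← Complex.exp_add]; congr 1; ring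
        rw [this]; ring
      rw [h2, h1, mul_zero]
    intro l hl
    rcases Finset.mem_insert.1 hl with rfl | hl
    · apply Polynomial.funext
      intro z
      have h1 := hp z
      rw [Finset.sum_insert ha, Finset.sum_eq_zero (fun l hl => by rw [hS l hl]; simp), add_zero] at h1
      rw [Polynomial.eval_zero]
      exact (mul_eq_zero.1 h1).resolve_right (Complex.exp_ne_zero _)
    · exact hS l hl

theorem split_exp (n : ℕ) (f : ℂ → ℂ) (hf : Differentiable ℂ f) (a c : ℂ) (ha : a ≠ 0)
    (h : ∀ z, iteratedDeriv n f z = c * cexp (a * z)) :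
    ∃ P : Polynomial ℂ, ∀ z, f z = c * (a ^ n)⁻¹ * cexp (a * z) + P.eval z := by
  have hg : Differentiable ℂ (fun z : ℂ => c * (a ^ n)⁻¹ * cexp (a * z)) := by fun_prop
  obtain ⟨P, hP⟩ := poly_of_iteratedDeriv_zero n (f - fun z : ℂ => c * (a ^ n)⁻¹ * cexp (a * z))
    (hf.sub hg) (by
      intro z
      have hn : a ^ n ≠ 0 := pow_ne_zero _ ha
      rw [iteratedDeriv_sub (hf.contDiff.contDiffAt) (hg.contDiff.contDiffAt), h z,
        iteratedDeriv_const_mul_field, iteratedDeriv_cexp_const_mul]
      field_simp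
      ring)
  refine ⟨P, fun z => ?_⟩
  have := hP z
  simp only [Pi.sub_apply] at this
  rw [← this]
  ring

theorem poly_growth (P : Polynomial ℂ) : ∃ C : ℝ, 0 ≤ C ∧ ∀ z : ℂ, ‖P.eval z‖ ≤ C * Real.exp ‖z‖ := by
  refine ⟨∑ k ∈ Finset.range (P.natDegree + 1), ‖P.coeff k‖ * k.factorial, by positivity, fun z => ?_⟩
  rw [Polynomial.eval_eq_sum_range, Finset.sum_mul]
  refine (norm_sum_le _ _).trans (Finset.sum_le_sum (fun k _ => ?_))
  rw [norm_mul, norm_pow, mul_assoc]
  apply mul_le_mul_of_nonneg_left _ (norm_nonneg _)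
  have h1 := Real.pow_div_factorial_le_exp ‖z‖ (norm_nonneg z) k
  rw [div_le_iff₀ (by positivity)] at h1
  linarith

theorem exp_growth (f : ℂ → ℂ) (a c : ℂ) (P : Polynomial ℂ)
    (h : ∀ z, f z = c * cexp (a * z) + P.eval z) :
    ∃ C : ℝ, 0 ≤ C ∧ ∀ z : ℂ, ‖f z‖ ≤ C * Real.exp ((‖a‖ + 1) * ‖z‖) := by
  obtain ⟨C, hC, hP⟩ := poly_growth P
  refine ⟨‖c‖ + C, by positivity, fun z => ?_⟩
  rw [h z, add_mul]
  refine (norm_add_le _ _).trans (add_le_add ?_ ?_)
  · rw [norm_mul, Complex.norm_exp]
    apply mul_le_mul_of_nonneg_left _ (norm_nonneg _)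
    apply Real.exp_le_exp.2
    calc (a * z).re ≤ ‖a * z‖ := Complex.re_le_norm _
      _ = ‖a‖ * ‖z‖ := norm_mul _ _
      _ ≤ (‖a‖ + 1) * ‖z‖ := by nlinarith [norm_nonneg z]
  · refine (hP z).trans (mul_le_mul_of_nonneg_left ?_ hC)
    apply Real.exp_le_exp.2
    nlinarith [norm_nonneg z, norm_nonneg a, mul_nonneg (norm_nonneg a) (norm_nonneg z)]

/-- A zero-free entire function is an exponential. -/
theorem exists_entire_log (h : ℂ → ℂ) (hh : Differentiable ℂ h) (h0 : ∀ z, h z ≠ 0) :
    ∃ φ : ℂ → ℂ, Differentiable ℂ φ ∧ ∀ z, h z = cexp (φ z) := by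
  have hd : Differentiable ℂ (deriv h) := hh.contDiff.differentiable_deriv_two
  have hq : Differentiable ℂ (fun z => deriv h z / h z) := hd.div hh h0
  obtain ⟨g, hg⟩ := hq.isExactOn_univ
  have hgd : ∀ z, HasDerivAt g (deriv h z / h z) z := fun z => hg z (mem_univ z)
  have hgD : Differentiable ℂ g := fun z => (hgd z).differentiableAt
  have hconst : ∀ z w, (fun z => h z * cexp (-g z)) z = (fun z => h z * cexp (-g z)) w := by
    apply is_const_of_deriv_eq_zero
    · exact hh.mul (hgD.neg.cexp)
    · intro z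
      have h1 : HasDerivAt (fun z => h z * cexp (-g z))
          (deriv h z * cexp (-g z) + h z * (cexp (-g z) * -(deriv h z / h z))) z :=
        (hh z).hasDerivAt.mul ((hgd z).neg.cexp)
      rw [h1.deriv]
      have := h0 z
      field_simp
      ring
  set c := h 0 * cexp (-g 0) with hc
  have hc0 : c ≠ 0 := mul_ne_zero (h0 0) (Complex.exp_ne_zero _)
  refine ⟨fun z => g z + Complex.log c, hgD.add_const _, fun z => ?_⟩
  have h1 := hconst z 0
  simp only at h1
  rw [Complex.exp_add, Complex.exp_log hc0, hc, ← h1]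
  have h2 : cexp (g z) * cexp (-g z) = 1 := by rw [← Complex.exp_add, add_neg_cancel, Complex.exp_zero]
  linear_combination -h z * h2

/-- An entire function with linear growth is affine. -/
theorem affine_of_growth (φ : ℂ → ℂ) (hφ : Differentiable ℂ φ) (C : ℝ)
    (hC : ∀ z, ‖φ z‖ ≤ C * (1 + ‖z‖)) : ∃ l m : ℂ, ∀ z, φ z = l * z + m := by
  have hC0 : 0 ≤ C := by
    have := hC 0
    simp only [norm_zero, add_zero, mul_one] at this
    exact (norm_nonneg _).trans this
  have hd : Differentiable ℂ (deriv φ) := hφ.contDiff.differentiable_deriv_two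
  have hb : ∀ z, ‖deriv φ z‖ ≤ 2 * C := by
    intro z
    have hR : 0 < 1 + ‖z‖ := by positivity
    have h1 := Complex.norm_deriv_le_of_forall_mem_sphere_norm_le (c := z) (R := 1 + ‖z‖)
      (C := C * (2 * (1 + ‖z‖))) hR hφ.diffContOnCl (by
        intro w hw
        refine (hC w).trans (mul_le_mul_of_nonneg_left ?_ hC0)
        have h2 : ‖w - z‖ = 1 + ‖z‖ := by simpa [dist_eq_norm] using hw
        have h3 : ‖w‖ ≤ ‖w - z‖ + ‖z‖ := by
          calc ‖w‖ = ‖(w - z) + z‖ := by rw [sub_add_cancel]
            _ ≤ _ := norm_add_le _ _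
        linarith)
    refine h1.trans (le_of_eq ?_)
    field_simp
  obtain ⟨l, hl⟩ := hd.exists_const_forall_eq_of_bounded (by
    rw [isBounded_iff_forall_norm_le]
    exact ⟨2 * C, by rintro _ ⟨z, rfl⟩; exact hb z⟩)
  have hconst : ∀ z w, (fun z => φ z - l * z) z = (fun z => φ z - l * z) w := by
    apply is_const_of_deriv_eq_zero
    · exact hφ.sub (by fun_prop)
    · intro z
      have h1 : HasDerivAt (fun z => φ z - l * z) (deriv φ z - l * 1) z :=
        (hφ z).hasDerivAt.fun_sub ((hasDerivAt_id z).const_mul l)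
      rw [h1.deriv, hl z]
      ring
  refine ⟨l, φ 0, fun z => ?_⟩
  have := hconst z 0
  simp only [mul_zero, sub_zero] at this
  linear_combination this

/-- A zero-free entire quotient of two entire functions of exponential type is `exp` of an affine
function. -/
theorem quotient_exp_affine (f g h : ℂ → ℂ) (hf : Differentiable ℂ f) (hg : Differentiable ℂ g)
    (hh : Differentiable ℂ h) (h0 : ∀ z, h z ≠ 0) (hfg : ∀ z, f z = h z * g z)
    (hg0 : ∃ z, g z ≠ 0) (C K : ℝ) (hC : 0 ≤ C) (hK : 0 ≤ K)
    (hfC : ∀ z : ℂ, ‖f z‖ ≤ C * Real.exp (K * ‖z‖)) (hgC : ∀ z : ℂ, ‖g z‖ ≤ C * Real.exp (K * ‖z‖)) :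
    ∃ l m : ℂ, ∀ z, h z = cexp (l * z + m) := by
  obtain ⟨φ, hφ, hφh⟩ := exists_entire_log h hh h0
  set A : ℝ → ℝ := fun ρ => Real.exp (K * |ρ|) with hAdef
  have hA : ∀ ρ, 1 ≤ A ρ := fun ρ => Real.one_le_exp (by positivity)
  have hGB : ∀ P : ℂ → ℂ, Differentiable ℂ P → (∀ z : ℂ, ‖P z‖ ≤ C * Real.exp (K * ‖z‖)) → GB A P := by
    intro P hP hPC
    refine ⟨hP, C, 1, hC, fun r ρ hr hρ z hz => ?_⟩
    have hY := (Yf_ge hA hr hρ).2.2.1
    have h1 := ratio_ge hr hρ
    have h2 : A ρ ≤ Yf A r ρ := by
      refine le_trans ?_ hY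
      exact le_mul_of_one_le_left (by linarith [hA ρ]) h1
    rw [pow_one]
    refine (hPC z).trans (mul_le_mul_of_nonneg_left ?_ hC)
    refine le_trans ?_ h2
    apply Real.exp_le_exp.2
    apply mul_le_mul_of_nonneg_left _ hK
    exact hz.trans (hρ.le.trans (le_abs_self ρ))
  obtain ⟨B, n, hB, hT⟩ := T_le hA hφ 1 (fun j => if j = 0 then (fun z => - f z) else g) (by
      intro j hj
      by_cases hj0 : j = 0
      · simp only [hj0, if_true]
        exact hGB _ hf.neg (fun z => by rw [norm_neg]; exact hfC z)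
      · simp only [hj0, if_false]
        exact hGB _ hg hgC) (by simpa using hg0) (by
      intro z
      rw [Finset.sum_range_succ, Finset.sum_range_succ, Finset.sum_range_zero]
      simp only [if_true, one_ne_zero, if_false, pow_zero, pow_one, mul_one, zero_add]
      rw [hfg z, hφh z]
      ring)
  -- linear bound for the mean
  set D : ℝ := B + n * (2 + K) with hD
  have hD0 : 0 ≤ D := by positivity
  have hmean : ∀ r : ℝ, 1 ≤ r → Real.circleAverage (fun z => max (φ z).re 0) 0 r ≤ D * (1 + r) := by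
    intro r hr
    have h1 := hT r (r + 1) hr (by linarith)
    have h2 : Yf A r (r + 1) = (r + 1) * (r + 1) * Real.exp (K * (r + 1)) := by
      unfold Yf
      rw [hAdef]
      simp only
      rw [abs_of_pos (by linarith : (0 : ℝ) < r + 1)]
      have : r + 1 - r = 1 := by ring
      rw [this, div_one]
    have h3 : Real.log (Yf A r (r + 1)) ≤ (2 + K) * (r + 1) := by
      have hr1 : (0 : ℝ) < r + 1 := by linarith
      rw [h2, Real.log_mul (by positivity) (by positivity), Real.log_mul hr1.ne' hr1.ne', Real.log_exp]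
      have h4 := Real.log_le_sub_one_of_pos hr1
      nlinarith
    have h5 : (n : ℝ) * Real.log (Yf A r (r + 1)) ≤ n * ((2 + K) * (r + 1)) :=
      mul_le_mul_of_nonneg_left h3 (Nat.cast_nonneg n)
    have h6 : B ≤ B * (1 + r) := le_mul_of_one_le_right hB (by linarith)
    calc _ ≤ B + n * Real.log (Yf A r (r + 1)) := h1
      _ ≤ B * (1 + r) + n * ((2 + K) * (r + 1)) := add_le_add h6 h5
      _ = D * (1 + r) := by rw [hD]; ring
  -- pointwise bound for the real part
  have hre : ∀ w : ℂ, (φ w).re ≤ 9 * D * (1 + ‖w‖) := by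
    intro w
    have hw0 := norm_nonneg w
    have hR : ‖w‖ < 2 * (‖w‖ + 1) := by linarith
    have h1 := poisson_upper hφ hR
    have h2 := hmean (2 * (‖w‖ + 1)) (by linarith)
    have h3 : (2 * (‖w‖ + 1) + ‖w‖) / (2 * (‖w‖ + 1) - ‖w‖) ≤ 3 := by
      rw [div_le_iff₀ (by linarith)]
      linarith
    have h4 : 0 ≤ Real.circleAverage (fun z => max (φ z).re 0) 0 (2 * (‖w‖ + 1)) :=
      Real.circleAverage_nonneg_of_nonneg (fun z _ => le_max_right _ _)
    calc (φ w).re ≤ max (φ w).re 0 := le_max_left _ _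
      _ ≤ _ := h1
      _ ≤ 3 * (D * (1 + 2 * (‖w‖ + 1))) := mul_le_mul h3 h2 h4 (by norm_num)
      _ ≤ 9 * D * (1 + ‖w‖) := by nlinarith
  -- Borel-Caratheodory
  have hgrow : ∀ z : ℂ, ‖φ z‖ ≤ (2 * (27 * D + 1) + 3 * ‖φ 0‖) * (1 + ‖z‖) := by
    intro z
    have hz0 := norm_nonneg z
    set R : ℝ := 2 * (‖z‖ + 1) with hRdef
    have hRpos : 0 < R := by positivity
    have hzR : z ∈ ball (0 : ℂ) R := by
      rw [mem_ball_zero_iff]
      linarith
    set M : ℝ := 9 * D * (1 + R) + 1 with hM
    have hMpos : 0 < M := by positivity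
    have h1 := Complex.borelCaratheodory (f := φ) hMpos hφ.differentiableOn (by
      intro w hw
      rw [mem_ball_zero_iff] at hw
      have := hre w
      show (φ w).re ≤ M
      nlinarith) hRpos hzR
    have hden : 0 < R - ‖z‖ := by linarith
    have h2 : 2 * M * ‖z‖ / (R - ‖z‖) ≤ 2 * M := by
      rw [div_le_iff₀ hden]
      nlinarith
    have h3 : ‖φ 0‖ * (R + ‖z‖) / (R - ‖z‖) ≤ 3 * ‖φ 0‖ := by
      rw [div_le_iff₀ hden]
      have : R + ‖z‖ ≤ 3 * (R - ‖z‖) := by linarith
      nlinarith [norm_nonneg (φ 0), mul_le_mul_of_nonneg_left this (norm_nonneg (φ 0))]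
    have h4 : 2 * M ≤ 2 * (27 * D + 1) * (1 + ‖z‖) := by
      rw [hM, hRdef]
      nlinarith [mul_nonneg hD0 hz0]
    have h5 : 3 * ‖φ 0‖ ≤ 3 * ‖φ 0‖ * (1 + ‖z‖) := by
      nlinarith [mul_nonneg (norm_nonneg (φ 0)) hz0]
    linarith
  obtain ⟨l, m, hlm⟩ := affine_of_growth φ hφ _ hgrow
  exact ⟨l, m, fun z => by rw [hφh z, hlm z]⟩

theorem exceptional_of_exp (f g h : ℂ → ℂ) (hf : Differentiable ℂ f) (hg : Differentiable ℂ g)
    (hh : Differentiable ℂ h) (h0 : ∀ z, h z ≠ 0) (hfg : ∀ z, f z = h z * g z)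
    (n : ℕ) (a b c₁ c₂ : ℂ) (ha : a ≠ 0) (hb : b ≠ 0) (hab : a ≠ b) (hc₁ : c₁ ≠ 0) (hc₂ : c₂ ≠ 0)
    (hfn : ∀ z, iteratedDeriv n f z = c₁ * Complex.exp (a * z))
    (hgn : ∀ z, iteratedDeriv n g z = c₂ * Complex.exp (b * z)) :
    (∃ a b c d : ℂ, ∀ z : ℂ,
        f z = Complex.exp (a * z + b) ∧ g z = Complex.exp (c * z + d)) ∨
    (∃ a b A B : ℂ, b ≠ 0 ∧ ∀ z : ℂ,
        f z = A * (Complex.exp (a * z) - b) ∧
        g z = B * (Complex.exp (-(a * z)) - b⁻¹)) := by
  classical
  obtain ⟨P, hP⟩ := split_exp n f hf a c₁ ha hfn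
  obtain ⟨Q, hQ⟩ := split_exp n g hg b c₂ hb hgn
  set α := c₁ * (a ^ n)⁻¹ with hα
  set β := c₂ * (b ^ n)⁻¹ with hβ
  have hα0 : α ≠ 0 := mul_ne_zero hc₁ (inv_ne_zero (pow_ne_zero _ ha))
  have hβ0 : β ≠ 0 := mul_ne_zero hc₂ (inv_ne_zero (pow_ne_zero _ hb))
  obtain ⟨C₁, hC₁, hfC⟩ := exp_growth f a α P hP
  obtain ⟨C₂, hC₂, hgC⟩ := exp_growth g b β Q hQ
  have hg0 : ∃ z, g z ≠ 0 := by
    by_contra hcon
    push Not at hcon
    have hg' : g = fun _ => 0 := funext hcon
    have h1 := hgn 0
    rw [hg'] at h1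
    have h2 : iteratedDeriv n (fun _ : ℂ => (0 : ℂ)) 0 = 0 := by
      rw [iteratedDeriv_const]
      split_ifs <;> rfl
    rw [h2] at h1
    exact mul_ne_zero hc₂ (Complex.exp_ne_zero _) h1.symm
  have hmono : ∀ (C D k l x : ℝ), 0 ≤ C → C ≤ D → k ≤ l → 0 ≤ x →
      C * Real.exp (k * x) ≤ D * Real.exp (l * x) := by
    intro C D k l x hC hCD hkl hx
    apply mul_le_mul hCD _ (Real.exp_pos _).le (hC.trans hCD)
    exact Real.exp_le_exp.2 (mul_le_mul_of_nonneg_right hkl hx)
  obtain ⟨l, m, hlm⟩ := quotient_exp_affine f g h hf hg hh h0 hfg hg0 (C₁ + C₂)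
    (‖a‖ + ‖b‖ + 1) (by positivity) (by positivity)
    (fun z => (hfC z).trans (hmono _ _ _ _ _ hC₁ (by linarith) (by linarith [norm_nonneg b]) (norm_nonneg z)))
    (fun z => (hgC z).trans (hmono _ _ _ _ _ hC₂ (by linarith) (by linarith [norm_nonneg a]) (norm_nonneg z)))
  set ε := cexp m with hε
  have hε0 : ε ≠ 0 := Complex.exp_ne_zero _
  -- the exponential polynomial identity
  have hid : ∀ z, α * cexp (a * z) + P.eval z - ε * β * cexp ((l + b) * z) -
      ε * Q.eval z * cexp (l * z) = 0 := by
    intro z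
    have h1 := hfg z
    rw [hP z, hQ z, hlm z, Complex.exp_add, ← hε] at h1
    have h2 : cexp ((l + b) * z) = cexp (l * z) * cexp (b * z) := by
      rw [← Complex.exp_add]; congr 1; ring
    rw [h2]
    linear_combination h1
  let p : ℂ → Polynomial ℂ := fun x =>
    (if x = a then Polynomial.C α else 0) + (if x = 0 then P else 0) -
    (if x = l + b then Polynomial.C (ε * β) else 0) - (if x = l then Polynomial.C ε * Q else 0)
  have hp := expPoly_indep {a, 0, l + b, l} p (by
    intro z
    have e : ∀ x, (p x).eval z * cexp (x * z) =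
        (if x = a then α * cexp (x * z) else 0) + (if x = 0 then P.eval z * cexp (x * z) else 0) -
        (if x = l + b then ε * β * cexp (x * z) else 0) -
        (if x = l then ε * Q.eval z * cexp (x * z) else 0) := by
      intro x
      simp only [p, Polynomial.eval_sub, Polynomial.eval_add]
      rw [sub_mul, sub_mul, add_mul]
      congr 1
      · congr 1
        · congr 1
          · split_ifs <;> simp
          · split_ifs <;> simp
        · split_ifs <;> simp
      · split_ifs <;> simp
    rw [Finset.sum_congr rfl (fun x _ => e x), Finset.sum_sub_distrib, Finset.sum_sub_distrib,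
      Finset.sum_add_distrib, Finset.sum_ite_eq', Finset.sum_ite_eq', Finset.sum_ite_eq',
      Finset.sum_ite_eq']
    simp only [Finset.mem_insert, Finset.mem_singleton, true_or, or_true, if_true, zero_mul,
      Complex.exp_zero, mul_one]
    exact hid z)
  have hpa := hp a (by simp)
  have hp0 := hp 0 (by simp)
  have hplb := hp (l + b) (by simp)
  have hpl := hp l (by simp)
  simp only [p, if_true] at hpa hp0 hplb hpl
  have hllb : l + b ≠ l := by
    intro h; apply hb; simpa using h
  by_cases h1 : a = l + b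
  · left
    have hal : a ≠ l := fun h => hllb (h1.symm.trans h)
    have hl0 : l ≠ 0 := by
      rintro rfl
      exact hab (by simpa using h1)
    have hlb0 : l + b ≠ 0 := h1 ▸ ha
    rw [if_neg (Ne.symm ha), if_neg (Ne.symm hlb0), if_neg (Ne.symm hl0)] at hp0
    rw [if_neg (Ne.symm hal), if_neg hl0, if_neg (Ne.symm hllb)] at hpl
    have hP0 : P = 0 := by simpa using hp0
    have hQ0 : Q = 0 := by
      have : Polynomial.C ε * Q = 0 := by simpa using hpl
      rcases mul_eq_zero.1 this with h | h
      · exact absurd (Polynomial.C_eq_zero.1 h) hε0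
      · exact h
    refine ⟨a, Complex.log α, b, Complex.log β, fun z => ⟨?_, ?_⟩⟩
    · rw [hP z, hP0, Complex.exp_add, Complex.exp_log hα0]
      simp [mul_comm]
    · rw [hQ z, hQ0, Complex.exp_add, Complex.exp_log hβ0]
      simp [mul_comm]
  · by_cases h2 : a = l
    · right
      have hl0 : l ≠ 0 := h2 ▸ ha
      rw [if_neg (Ne.symm h1), if_neg hllb] at hplb
      have hlb : l + b = 0 := by
        by_contra hne
        rw [if_neg hne] at hplb
        have : Polynomial.C (ε * β) = 0 := by simpa using hplb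
        exact mul_ne_zero hε0 hβ0 (Polynomial.C_eq_zero.1 this)
      rw [if_pos hlb] at hplb
      rw [if_neg ha, if_neg h1, if_pos h2] at hpa
      have hPc : P = Polynomial.C (ε * β) := by
        have : P - Polynomial.C (ε * β) = 0 := by simpa using hplb
        exact sub_eq_zero.1 this
      have hQc : ∀ z, ε * Q.eval z = α := by
        intro z
        have : Polynomial.C α - Polynomial.C ε * Q = 0 := by simpa using hpa
        have := congrArg (Polynomial.eval z) this
        simp only [Polynomial.eval_sub, Polynomial.eval_C, Polynomial.eval_mul, Polynomial.eval_zero] at this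
        linear_combination -this
      have hba : b = -a := by rw [h2]; linear_combination hlb
      refine ⟨a, -(ε * β) / α, α, β, div_ne_zero (neg_ne_zero.2 (mul_ne_zero hε0 hβ0)) hα0,
        fun z => ⟨?_, ?_⟩⟩
      · rw [hP z, hPc, Polynomial.eval_C]
        field_simp
        ring
      · have hQz : Q.eval z = α / ε := by
          rw [eq_div_iff hε0]
          linear_combination hQc z
        rw [hQ z, hQz, hba]
        have e : -a * z = -(a * z) := by ring
        rw [e]
        field_simp
        ring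
    · exfalso
      rw [if_neg ha, if_neg h1, if_neg h2] at hpa
      have : Polynomial.C α = 0 := by simpa using hpa
      exact hα0 (Polynomial.C_eq_zero.1 this)

end Pool.Agent.Hhelper45.Hink
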